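import Pool.Agent.H815.CE.AR

/-!
# Aspherical manifolds whose fundamental groups are kernels of homomorphisms of Artin groups

Let `M` be a Coxeter matrix on a finite set `B` of generators, `Artin M` its Artin group, and `L` its nerve, the
simplicial complex whose simplices are the spherical subsets of `B` (`Sph M`). Let `χ` be a homomorphism from `Artin M`
to a group `Q`, and let `H` be a subgroup of `Artin M` which contains a positive power of every element of the kernel of
`χ` which is in the pure Artin group, the kernel of `toCox M`; for instance, `H` may be the kernel of `χ` or a subgroup
of finite index of it. Let `Γ` be a group with a coarse embedding `H → Γ` (`CoarseEmb H Γ`; for instance, `Γ` contains a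
copy of `H`, or `Γ` and `H` are finitely generated and quasi-isometric) which acts properly on a contractible space `X`
such that `X × X` has a continuous injective map to the euclidean space of dimension `2 n` (`Acts n Γ`), for instance
the fundamental group of a compact aspherical `n`-manifold with or without boundary (`X` is the universal covering of
the interior, and `X × X` is homeomorphic to the euclidean space: Stallings, Siebenmann). Let `i > n / 2`.

(1) Let `J` be a nonempty set of pairwise commuting generators such that for every element `x` of the pure Artin group a
positive power of `χ x` is in the subgroup generated by `χ J`. (For instance, `Q` is free abelian and `χ J` is a set of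
linearly independent elements, as many as the rank of `Q`; for `Q` infinite cyclic, `J = {s}` with `χ s ≠ 0`.) Then the
link of the simplex `J` in `L` has no reduced homology modulo `2` in the degree `i - 1`, and the same holds for its full
subcomplexes.

(2) Let `Q` be the group of integers and let `T` be an irreducible spherical subset such that `χ s > 0` for `s ∈ T`.
Then the link of the barycentre of the simplex `T` in `L`, that is, the complex of all `σ` such that `T ∪ σ` is a
simplex of `L` and `σ` does not contain `T`, has no reduced homology modulo `2` in the degree `i - 1`. It is the join of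
the boundary of `T` and of the link of `T`, so that the link of `T` has no reduced homology modulo `2` in the degree `i
- |T|`.

For a right-angled Artin group and `Q` infinite cyclic, if the kernel of `χ` is of type `FP`, then its `L²`-Betti number
in the degree `i` is the sum of `|χ v|` times the dimension of the reduced rational homology in the degree `i - 1` of
the link of `v`, over all generators `v` (Davis and Okun for the Bestvina-Brady groups; Fisher, Hughes and Leary, who
show the same formula for the homology growth modulo `2`, with homology modulo `2`). So `b_i (N) = 0` for all `i > n /
2` for all aspherical `n`-manifolds `N` whose fundamental group is commensurable with such a kernel, or quasi-isometric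
to it, as the vanishing of the `i`-th `L²`-Betti number is invariant under coarse equivalences (Sauer and Schrödl); in
particular the action dimension conjecture holds for the Bestvina-Brady groups of type `FP`.

Proof. Let `z_T` be the central elements of the irreducible spherical special subgroups. Let `T` be adjacent to all the
vertices of a clique `J` of the complex of these subsets. Then a product `y_T` of a positive power of `z_T` and of an
element of the free abelian group generated by the `z_U`, `U ∈ J`, is in the kernel of `χ`. These elements commute for
adjacent `T`, and the homomorphisms `φ_T` from the pure Artin group to the integers, which vanish on `z_U` if and only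
if `U ≠ T`, separate them. So the flag complex of the link of `J` has no homology in the degree `i - 1`, by the engine
of `MP_4f4d9f_gt.GraphProducts`, and the homology of the link of `J` in the nerve is a direct summand of its homology,
by acyclic carriers (`AR.Ker`, `AR.Car`, `AR.Inj`).
-/

set_option autoImplicit false

open Pool.Agent.H815.TW Pool.Agent.H815.CE Pool.Agent.H815.AR Pool.Agent.Helper741

/-- (1) links of commuting sets of generators in the nerve, for kernels of homomorphisms to any group; (2) links of
the barycentres of the irreducible spherical subsets, for kernels of characters. -/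
theorem Pool.Agent.Results.MP_8fe54c_gt.KernelsOfCharacters.result (B : Type) [Fintype B] [DecidableEq B]
    (M : CoxeterMatrix B) :
    (∀ (Q : Type) [Group Q] (χ : Artin M →* Q) (H : Subgroup (Artin M)),
      (∀ x : Artin M, toCox M x = 1 → χ x = 1 → ∃ k : ℕ, 0 < k ∧ x ^ k ∈ H) →
      ∀ (Γ : Type) [Group Γ], CoarseEmb H Γ → ∀ n i : ℕ, Acts n Γ → n < 2 * i →
      ∀ J : Finset B, J.Nonempty → (∀ s ∈ J, ∀ t ∈ J, s ≠ t → M s t = 2) →
      (∀ x : Artin M, toCox M x = 1 → ∃ k : ℕ, 0 < k ∧
        ∃ y ∈ Subgroup.closure (Artin.gen M '' (J : Set B)), χ x ^ k = χ y) →
      ∀ U : Finset B, AcyC (fun σ : Finset B => Disjoint J σ ∧ σ ⊆ U ∧ Sph M (J ∪ σ)) i) ∧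
    (∀ (χ : Artin M →* Multiplicative ℤ) (H : Subgroup (Artin M)),
      (∀ x : Artin M, toCox M x = 1 → χ x = 1 → ∃ k : ℕ, 0 < k ∧ x ^ k ∈ H) →
      ∀ (Γ : Type) [Group Γ], CoarseEmb H Γ → ∀ n i : ℕ, Acts n Γ → n < 2 * i →
      ∀ T : Finset B, Irr M T → Sph M T → (∀ s ∈ T, 0 < Multiplicative.toAdd (χ (Artin.gen M s))) →
      AcyC (fun σ : Finset B => ¬ T ⊆ σ ∧ Sph M (T ∪ σ)) i) :=
  ⟨fun _ _ χ H hH Γ _ hΓ _ _ ha hi J _ hJ hsp U =>
      Pool.Agent.H815.AR.CE.artin_kernel M χ H hH ⟨Γ, _, ha, hΓ⟩ hi J hJ hsp U,
    fun χ H hH Γ _ hΓ _ _ ha hi T hI hS hT =>
      Pool.Agent.H815.AR.CE.artin_kernel_irr M χ H hH ⟨Γ, _, ha, hΓ⟩ hi T hI hS hT⟩
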