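import Pool.Agent.H815.HG.Two

/-!
# Homology growth modulo two above half the action dimension

Let `G` be a finite graph such that for every vertex `v` there is another vertex which is adjacent to all the
neighbours of `v` (`Dom G`), and let `W G` be the right-angled Coxeter group. For example, `G` is the
octahedralization of any finite graph `L`; its right-angled Coxeter group is commensurable with the right-angled Artin
group of `L` (Davis and Januszkiewicz).

Suppose that a group `Δ` contains a subgroup of finite index of `W G` and acts properly, not necessarily cocompactly, on
a contractible space `M` such that `M × M` has a continuous injective map to the euclidean space of dimension `2 n` (`Acts`),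
for example `Δ` is the fundamental group of a compact aspherical manifold of dimension `n` with or without boundary
(`M` is the universal cover of the interior, and `M × M` is homeomorphic to the euclidean space: Stallings, Siebenmann).

For a subgroup `H` of finite index of the commutator subgroup of `W G`, `betti G (ZMod 2) H i` is the `i`-th Betti number
modulo `2` of the quotient of the Davis complex by `H`; `H` has no torsion, so this is the `i`-th Betti number modulo `2`
of the group `H`.

**Theorem.** Let `i > n / 2`. For every sequence `Γ 0 ≥ Γ 1 ≥ ...` of subgroups of finite index of the commutator subgroup,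
normal in `Γ 0`, with trivial intersection, the numbers `b_i (Γ k; F_2) / [Γ 0 : Γ k]` converge to zero. If a subgroup `H` of
finite index of the commutator subgroup contains no conjugate of `(u v) ^ j` for `u ≠ v` not adjacent and
`0 < j < R`, then `R b_i (H; F_2) ≤ 2 |V| 2 ^ |V| [W : H]`.

By the universal coefficient theorem and the approximation theorem of Lück this implies that the `i`-th
`ℓ²`-Betti number vanishes. For odd primes the analogous statement is false: the right-angled Artin groups of Avramidi, Okun
and Schreve.

Proof. By `MP_83fbc5_gt.DominatedCoxeterGroups` (`HG.Cox`, `HG.Grow`) the homology growth is the mean of the dimensions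
of the reduced homology of the full subcomplexes on certain sets `asc t S` of vertices, with an explicit bound of the
error. These sets are doubled in the flag complex of `G`, so that the homology modulo `2` in the degree `i - 1` vanishes
by the theorem of `MP_ea75ba_gt.DominatedNerves` (`TW.Full`, `TW.Main`, `HG.Two`).
-/

set_option autoImplicit false

open Pool.Agent.H815.TW Pool.Agent.H815.HG Pool.Agent.W907.SG Filter Topology

/-- Let `G` be a finite graph in which every vertex is dominated by another vertex, and let `n < 2 i`. Suppose that a
group `Δ` which contains a subgroup `K` of finite index of the right-angled Coxeter group of `G` acts properly on a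
contractible space `M` with a continuous injective map from `M × M` to the euclidean space of dimension `2 n`. Then the
normalised `i`-th Betti numbers modulo `2` converge to zero for all normal chains with trivial intersection in all
subgroups of finite index of the commutator subgroup, with a bound for the speed. -/
theorem Pool.Agent.Results.MP_8fe54c_gt.ModTwoGrowth.result (V : Type) [Fintype V] [LinearOrder V]
    (G : SimpleGraph V) (hd : Dom G) (K : Subgroup (W G)) (hK : K.FiniteIndex) (Δ : Type) [Group Δ] (φ : K →* Δ)
    (hφ : Function.Injective φ) (n i : ℕ) (ha : Acts n Δ) (hi : n < 2 * i) :
    (∀ Γ : ℕ → Subgroup (W G), Antitone Γ → (∀ k, (Γ k).FiniteIndex) → Γ 0 ≤ commutator (W G) →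
      (∀ k, ∀ g ∈ Γ 0, ∀ x ∈ Γ k, g * x * g⁻¹ ∈ Γ k) → ⨅ k, Γ k = ⊥ →
      Tendsto (fun k => (betti G (ZMod 2) (Γ k) i : ℝ) / (Γ k).relIndex (Γ 0)) atTop (𝓝 0)) ∧
    (∀ (R : ℕ) (H : Subgroup (W G)), H.FiniteIndex → H ≤ commutator (W G) → Far G R H →
      R * betti G (ZMod 2) H i ≤ 2 * Fintype.card V * 2 ^ Fintype.card V * H.index) :=
  growth_mod_two hd K hK Δ φ hφ ha hi
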